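import Pool.Agent.H927.MG.SGoals

/-!
# The curve is connected if `H⁰(O) = K`
-/

set_option autoImplicit false

open AlgebraicGeometry CategoryTheory Limits Polynomial

namespace Pool.Agent.H860.MG927

open Pool.Agent.W523 Pool.Agent.H927.MG

theorem sc_injective {K : Type} [Field K] (d : Dat K[X]) : Function.Injective (sc d) := by
  intro r s h
  have h1 := congrArg BB.a h
  rw [Pool.Agent.H927.MG.sc_apply, Pool.Agent.H927.MG.sc_apply, BB.of_a, BB.of_a] at h1
  exact Polynomial.C_injective h1

theorem conn : S_conn := by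
  intro K _ G hG
  have hcov := (crvCharts G).cov
  have hw : (crvCharts G).j₁ ∘ (Spec.map (CommRingCat.ofHom (inc G.d1))) =
      (crvCharts G).j₂ ∘ (Spec.map (CommRingCat.ofHom (inc2 G))) := by
    funext x
    have := congr($((crvCharts G).pb.w) x)
    rw [Scheme.Hom.comp_apply, Scheme.Hom.comp_apply] at this
    exact this
  have hnt : Nontrivial (BB G.d1) := ⟨0, 1, fun h => by
    have := congrArg BB.a h
    rw [BB.zero_a, BB.one_a] at this
    exact zero_ne_one this⟩
  have hne : Nonempty (Crv G) := by
    obtain ⟨x⟩ : Nonempty (PrimeSpectrum (BB G.d1)) := inferInstance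
    exact ⟨(crvCharts G).j₁ x⟩
  have key : ∀ U : Set (Crv G), IsClopen U → U = ∅ ∨ U = Set.univ := by
    intro U hU
    have h1 : IsClopen ((crvCharts G).j₁ ⁻¹' U) := hU.preimage (crvCharts G).j₁.continuous
    have h2 : IsClopen ((crvCharts G).j₂ ⁻¹' U) := hU.preimage (crvCharts G).j₂.continuous
    obtain ⟨e1, he1, hU1⟩ := PrimeSpectrum.exists_idempotent_basicOpen_eq_of_isClopen
      (R := BB G.d1) h1
    obtain ⟨e2, he2, hU2⟩ := PrimeSpectrum.exists_idempotent_basicOpen_eq_of_isClopen
      (R := BB G.d2) h2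
    have h3 : inc G.d1 e1 = inc2 G e2 := by
      refine PrimeSpectrum.basicOpen_injOn_isIdempotentElem (he1.map _) (he2.map _) ?_
      apply TopologicalSpace.Opens.ext
      have e3 : ((PrimeSpectrum.basicOpen (inc G.d1 e1) : TopologicalSpace.Opens _) :
          Set (PrimeSpectrum (BB G.d1.L))) =
          (PrimeSpectrum.comap (inc G.d1)) ⁻¹' (PrimeSpectrum.basicOpen e1 :
            TopologicalSpace.Opens (PrimeSpectrum (BB G.d1))) := rfl
      have e4 : ((PrimeSpectrum.basicOpen (inc2 G e2) : TopologicalSpace.Opens _) :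
          Set (PrimeSpectrum (BB G.d1.L))) =
          (PrimeSpectrum.comap (inc2 G)) ⁻¹' (PrimeSpectrum.basicOpen e2 :
            TopologicalSpace.Opens (PrimeSpectrum (BB G.d2))) := rfl
      rw [e3, e4, ← hU1, ← hU2]
      have e5 := congrArg (fun f => f ⁻¹' U) hw
      exact e5
    obtain ⟨r, hr⟩ := hG.1 e1 e2 h3
    have hr2 : r * r = r := by
      apply sc_injective G.d1
      rw [map_mul, ← hr]
      exact he1
    have hr3 : r = 0 ∨ r = 1 := by
      have : r * (r - 1) = 0 := by linear_combination hr2
      rcases mul_eq_zero.1 this with h | h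
      · exact Or.inl h
      · exact Or.inr (sub_eq_zero.1 h)
    rcases hr3 with rfl | rfl
    · left
      rw [map_zero] at hr
      have h5 : e2 = 0 := by
        apply inc2_injective G
        rw [← h3, hr, map_zero, map_zero]
      rw [Set.eq_empty_iff_forall_notMem]
      intro p hp
      rcases hcov p with ⟨x, rfl⟩ | ⟨x, rfl⟩
      · have h6 : x ∈ (crvCharts G).j₁ ⁻¹' U := hp
        rw [hU1, hr] at h6
        exact h6 (Ideal.zero_mem _)
      · have h6 : x ∈ (crvCharts G).j₂ ⁻¹' U := hp
        rw [hU2, h5] at h6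
        exact h6 (Ideal.zero_mem _)
    · right
      rw [map_one] at hr
      have h5 : e2 = 1 := by
        apply inc2_injective G
        rw [← h3, hr, map_one, map_one]
      rw [Set.eq_univ_iff_forall]
      intro p
      rcases hcov p with ⟨x, rfl⟩ | ⟨x, rfl⟩
      · change x ∈ (crvCharts G).j₁ ⁻¹' U
        rw [hU1, hr, PrimeSpectrum.basicOpen_one]
        trivial
      · change x ∈ (crvCharts G).j₂ ⁻¹' U
        rw [hU2, h5, PrimeSpectrum.basicOpen_one]
        trivial
  have hpre : PreconnectedSpace (Crv G) := preconnectedSpace_iff_clopen.2 key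
  exact { toPreconnectedSpace := hpre, toNonempty := hne }

end Pool.Agent.H860.MG927
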